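import Pool.Agent.Lib.MP_9d0e09_an.Stm

/-!
# Factors of the parity-check subshift that determine a function of finitely many coordinates
-/

open MeasureTheory Filter Topology

namespace Pool.Agent.Results.MP_9d0e09_an.BlockCodes

open Pool.Agent.MP_9d0e09_an

/-- Sofic entropy of the measurable factors of the parity-check subshift that determine, or almost
determine, a function of finitely many coordinates, along every sofic approximation. -/
theorem result (d k : ℕ) (hd : 3 ≤ d) (hdk : d < k)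
    (μ : Measure (Gam d k → ZMod 2)) (hμ : IsHaarOn (PX (gen d k) k) μ)
    (V : ℕ → Type) [∀ n, Finite (V n)] [∀ n, Nonempty (V n)]
    (σ : ∀ n, Gam d k → Equiv.Perm (V n)) (hσ : IsSoficMap σ)
    (A : Type) [Fintype A] [MeasurableSpace A] [MeasurableSingletonClass A]
    (ψ : (Gam d k → ZMod 2) → A) (hψ : Measurable ψ)
    (B : Type) [Fintype B] [MeasurableSpace B] [MeasurableSingletonClass B]
    (F₀ : Finset (Gam d k)) (φ : (F₀ → ZMod 2) → B) :
    (F₀.Nonempty →
      (∀ W : Finset (Gam d k), EntGe μ (μ.map (mcode ψ)) σ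
        (blockH μ F₀ φ / F₀.card - Real.log 2 - condH μ ψ W F₀ φ)) ∧
      (Determines μ ψ F₀ φ → EntGe μ (μ.map (mcode ψ)) σ
        (blockH μ F₀ φ / F₀.card - Real.log 2))) ∧
    (Determines μ ψ F₀ φ → (∃ z z', φ z ≠ φ z') → d * 2 ^ F₀.card ≤ k →
      ((((1 - (d : ℝ) / k) * Real.log 2 : ℝ) : EReal) ≤ soficEntropyM μ σ →
        0 < soficEntropyM (μ.map (mcode ψ)) σ) ∧
      ((((1 - (d : ℝ) / k) * Real.log 2 : ℝ) : EReal) ≤ lowerSoficEntropyM μ σ →
        0 < lowerSoficEntropyM (μ.map (mcode ψ)) σ)) := by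
  have := hμ.prob
  constructor
  · intro hF₀
    constructor
    · intro W
      exact uni_block d k (by omega) μ V σ hσ F₀ hF₀ φ ψ hψ _ (pred_condH μ ψ hψ W F₀ φ)
    · intro hdet
      have h1 := uni_block d k (by omega) μ V σ hσ F₀ hF₀ φ ψ hψ 0 (pred_det μ ψ hψ F₀ φ hdet)
      rw [sub_zero] at h1
      exact h1
  · intro hdet hφ hk
    exact uni_pos d k hd hdk μ hμ V σ hσ F₀ φ hφ hk ψ hψ (pred_det μ ψ hψ F₀ φ hdet)

end Pool.Agent.Results.MP_9d0e09_an.BlockCodes
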