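import Pool.Agent.Lib.MP_9d0e09_an.Stm3

/-!
# Factors of the parity-check subshift that determine a function of finitely many coordinates
-/

open MeasureTheory Filter Topology

namespace Pool.Agent.Results.MP_9d0e09_an.CylinderFactors

open Pool.Agent.MP_9d0e09_an

/-- Along every sofic approximation along which the topological sofic entropy of the parity-check
subshift is at most `(1 - d/k) log 2`, the lower sofic entropy of a measurable factor is bounded
below by an explicit positive number if the factor determines a function of finitely many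
coordinates no period of which moves a given coordinate, or a given sum of coordinates along a
coset of an infinite cyclic subgroup. This is so for every nonconstant function of finitely many
coordinates in such a coset, and for the indicator of every cylinder set. -/
theorem result (d k : ℕ) (hd : 3 ≤ d) (hdk : d < k)
    (μ : Measure (Gam d k → ZMod 2)) (hμ : IsHaarOn (PX (gen d k) k) μ)
    (V : ℕ → Type) [∀ n, Finite (V n)] [∀ n, Nonempty (V n)]
    (σ : ∀ n, Gam d k → Equiv.Perm (V n)) (hσ : IsSoficMap σ) (hr : TopRate (gen d k) k σ)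
    (A : Type) [Fintype A] [MeasurableSpace A] [MeasurableSingletonClass A]
    (ψ : (Gam d k → ZMod 2) → A) (hψ : Measurable ψ) (F : Finset (Gam d k)) :
    (∀ (B : Type) [Fintype B] [MeasurableSpace B] [MeasurableSingletonClass B]
        (φ : (F → ZMod 2) → B), InCoset F →
        (∃ x ∈ PX (gen d k) k, ∃ y ∈ PX (gen d k) k, φ (fun g => x g) ≠ φ (fun g => y g)) →
        LowBound μ ψ F φ σ (2 * ((1 - (d : ℝ) / k) * Real.log 2) / (F.card * 2 ^ F.card))) ∧
    (F.Nonempty → ∀ b ∈ PX (gen d k) k, LowBound μ ψ F (cylInd F b) σ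
        (2 * ((1 - (d : ℝ) / k) * Real.log 2) / (F.card * 2 ^ F.card))) ∧
    (∀ (B : Type) [Fintype B] [MeasurableSpace B] [MeasurableSingletonClass B]
        (φ : (F → ZMod 2) → B) (T : Finset (Gam d k)), T ⊆ F →
        ((∃ t, T = {t}) ∨ InCoset T) → (∃ u ∈ PX (gen d k) k, ∑ t ∈ T, u t ≠ 0) →
        Moves (PX (gen d k) k) F φ T →
        LowBound μ ψ F φ σ (2 * ((1 - (d : ℝ) / k) * Real.log 2) / (F.card * 2 ^ F.card))) := by
  refine ⟨?_, ?_, ?_⟩
  · intro B _ _ _ φ hF hne
    obtain ⟨T, hTF, _, hu, hφ⟩ := exists_T _ (px_zero d k) (px_add d k) F φ hne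
    obtain ⟨h, g, hg, hF⟩ := hF
    exact cyl_stm d k hd hdk μ hμ V σ hσ hr ψ hψ F φ T hTF
      (Or.inr ⟨h, g, hg, fun t ht => hF t (hTF ht)⟩) hu hφ
  · rintro ⟨t, hF⟩ b hb
    have : NeZero k := ⟨by omega⟩
    obtain ⟨u, hu, hne⟩ := exists_sep (d := d) (k := k) {t} ⟨t, Finset.mem_singleton_self t⟩ (by
      rw [Finset.card_singleton]; omega)
    exact cyl_stm d k hd hdk μ hμ V σ hσ hr ψ hψ F (cylInd F b) {t}
      (Finset.singleton_subset_iff.mpr hF) (Or.inl ⟨t, rfl⟩) ⟨u, hu, hne⟩
      (cylInd_moves _ F b hb t hF)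
  · intro B _ _ _ φ T hTF hT hu hφ
    exact cyl_stm d k hd hdk μ hμ V σ hσ hr ψ hψ F φ T hTF hT hu hφ

end Pool.Agent.Results.MP_9d0e09_an.CylinderFactors
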