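import Pool.Agent.Lib.MP_9d0e09_an.Stm2

/-!
# Factors of the parity-check subshift that determine a permutive code
-/

open MeasureTheory Filter Topology

namespace Pool.Agent.Results.MP_9d0e09_an.PermutiveFactors

open Pool.Agent.MP_9d0e09_an

/-- Sofic entropy of the measurable factors of the parity-check subshift that determine, or almost
determine, a permutive block code along the powers of an element of infinite order, along every
sofic approximation. -/
theorem result (d k : ℕ) (hd : 3 ≤ d) (hdk : d < k)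
    (μ : Measure (Gam d k → ZMod 2)) (hμ : IsHaarOn (PX (gen d k) k) μ)
    (V : ℕ → Type) [∀ n, Finite (V n)] [∀ n, Nonempty (V n)]
    (σ : ∀ n, Gam d k → Equiv.Perm (V n)) (hσ : IsSoficMap σ)
    (h : Gam d k) (hh : ¬ IsOfFinOrder h) (a : ℤ) (D : ℕ)
    (B : Type) [Fintype B] [MeasurableSpace B] [MeasurableSingletonClass B]
    (ψ₀ : (Fin (D + 1) → ZMod 2) → B) (hψ₀ : Permutive ψ₀)
    (A : Type) [Fintype A] [MeasurableSpace A] [MeasurableSingletonClass A]
    (ψ : (Gam d k → ZMod 2) → A) (hψ : Measurable ψ) :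
    (∀ W : Finset (Gam d k), EntGe μ (μ.map (mcode ψ)) σ
      (- condHf μ ψ W (fun x => pcode h a D ψ₀ x 1))) ∧
    (DeterminesF μ ψ (fun x => pcode h a D ψ₀ x 1) → EntGe μ (μ.map (mcode ψ)) σ 0) := by
  have := hμ.prob
  exact perm_stm d k (by omega) μ V σ hσ h hh a D ψ₀ hψ₀ ψ hψ

end Pool.Agent.Results.MP_9d0e09_an.PermutiveFactors
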