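import Pool.Agent.Lib.MP_9d0e09_an.Stm

/-!
# Factors of the parity-check subshift that determine a function of fewer than `k / d` coordinates
-/

open MeasureTheory Filter Topology

namespace Pool.Agent.Results.MP_9d0e09_an.SmallWindows

open Pool.Agent.MP_9d0e09_an

/-- Sofic entropy of the measurable factors of the parity-check subshift that determine, or almost
determine, a function of fewer than `k / d` coordinates, along sofic approximations along which the
topological sofic entropy is at most `T`. -/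
theorem result (d k : ℕ) (hd : 3 ≤ d) (hdk : d < k)
    (μ : Measure (Gam d k → ZMod 2)) (hμ : IsHaarOn (PX (gen d k) k) μ)
    (V : ℕ → Type) [∀ n, Finite (V n)] [∀ n, Nonempty (V n)]
    (σ : ∀ n, Gam d k → Equiv.Perm (V n)) (hσ : IsSoficMap σ)
    (T : ℝ) (hT : TopLe (gen d k) k σ T)
    (A : Type) [Fintype A] [MeasurableSpace A] [MeasurableSingletonClass A]
    (ψ : (Gam d k → ZMod 2) → A) (hψ : Measurable ψ)
    (B : Type) [Fintype B] [MeasurableSpace B] [MeasurableSingletonClass B]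
    (F₀ : Finset (Gam d k)) (φ : (F₀ → ZMod 2) → B) :
    (F₀.Nonempty → ∀ p : ℝ, 0 < p → p ≤ 1 →
      (∀ a : B, (Nat.card {z : F₀ → ZMod 2 // φ z = a} : ℝ) ≤ p * 2 ^ F₀.card) →
      (∀ W : Finset (Gam d k), EntGe μ (μ.map (mcode ψ)) σ
        ((1 / (F₀.card : ℝ) - d / k) * (- Real.log p) - T - condH μ ψ W F₀ φ)) ∧
      (Determines μ ψ F₀ φ → EntGe μ (μ.map (mcode ψ)) σ
        ((1 / (F₀.card : ℝ) - d / k) * (- Real.log p) - T))) ∧
    (Determines μ ψ F₀ φ → (∃ z z', φ z ≠ φ z') → d * F₀.card < k →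
      ((T : EReal) ≤ soficEntropyM μ σ → 0 < soficEntropyM (μ.map (mcode ψ)) σ) ∧
      ((T : EReal) ≤ lowerSoficEntropyM μ σ → 0 < lowerSoficEntropyM (μ.map (mcode ψ)) σ) ∧
      (T ≤ (1 - (d : ℝ) / k) * Real.log 2 →
        0 < lowerSoficEntropyM (μ.map (mcode ψ)) σ)) := by
  have := hμ.prob
  have hmono : T ≤ (1 - (d : ℝ) / k) * Real.log 2 →
      TopLe (gen d k) k σ ((1 - (d : ℝ) / k) * Real.log 2) := by
    intro h ε hε
    obtain ⟨δ, hδ, h1⟩ := hT ε hε
    refine ⟨δ, hδ, h1.mono ?_⟩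
    intro n hn
    linarith
  constructor
  · intro hF₀ p hp0 hp1 hp
    constructor
    · intro W
      exact meas_map d k hd hdk μ hμ V σ hσ T hT ψ hψ F₀ hF₀ φ p hp0 hp1 hp _
        (pred_condH μ ψ hψ W F₀ φ)
    · intro hdet
      have h1 := meas_map d k hd hdk μ hμ V σ hσ T hT ψ hψ F₀ hF₀ φ p hp0 hp1 hp 0
        (pred_det μ ψ hψ F₀ φ hdet)
      rw [sub_zero] at h1
      exact h1
  · intro hdet hφ hm
    have h1 := meas_pos d k hd hdk μ hμ V σ hσ T hT ψ hψ F₀ φ hφ hm (pred_det μ ψ hψ F₀ φ hdet)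
    refine ⟨h1.1, h1.2, fun h => ?_⟩
    have h2 := (main_map d k hd hdk μ hμ V σ hσ (hmono h)).2.1
    apply h1.2
    rw [h2]
    exact_mod_cast h

end Pool.Agent.Results.MP_9d0e09_an.SmallWindows
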